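import Pool.Agent.H608R4.KM.Stm

set_option autoImplicit false

namespace Pool.Agent.H608R4.KM

open Finset

theorem dl_pos : 0 < dl := by unfold dl; norm_num

theorem ind_nonneg (p : Prop) : 0 ≤ ind p := by
  unfold ind; split_ifs <;> norm_num

theorem ind_true {p : Prop} (h : p) : ind p = 1 := by
  unfold ind; rw [if_pos h]

theorem R4_le {n : ℕ} (x y : Fin n → ℝ) (hu : ∀ i, x i ^ 2 + y i ^ 2 = 1) : R4 x y ≤ (n : ℝ) ^ 2 := by
  unfold R4
  have h1 : C4 x y ^ 2 ≤ (∑ i : Fin n, (1 : ℝ) ^ 2) * ∑ i, (x i ^ 4 - 6 * x i ^ 2 * y i ^ 2 + y i ^ 4) ^ 2 := by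
    unfold C4
    have := Finset.sum_mul_sq_le_sq_mul_sq (univ : Finset (Fin n)) (fun _ => (1 : ℝ))
      (fun i => x i ^ 4 - 6 * x i ^ 2 * y i ^ 2 + y i ^ 4)
    simpa using this
  have h2 : S4 x y ^ 2 ≤ (∑ i : Fin n, (1 : ℝ) ^ 2) * ∑ i, (4 * x i ^ 3 * y i - 4 * x i * y i ^ 3) ^ 2 := by
    unfold S4
    have := Finset.sum_mul_sq_le_sq_mul_sq (univ : Finset (Fin n)) (fun _ => (1 : ℝ))
      (fun i => 4 * x i ^ 3 * y i - 4 * x i * y i ^ 3)
    simpa using this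
  have h3 : (∑ i, (x i ^ 4 - 6 * x i ^ 2 * y i ^ 2 + y i ^ 4) ^ 2) +
      (∑ i, (4 * x i ^ 3 * y i - 4 * x i * y i ^ 3) ^ 2) = (n : ℝ) := by
    rw [← Finset.sum_add_distrib]
    have : ∀ i : Fin n, (x i ^ 4 - 6 * x i ^ 2 * y i ^ 2 + y i ^ 4) ^ 2 +
        (4 * x i ^ 3 * y i - 4 * x i * y i ^ 3) ^ 2 = 1 := by
      intro i
      have h := hu i
      have : (x i ^ 4 - 6 * x i ^ 2 * y i ^ 2 + y i ^ 4) ^ 2 +
        (4 * x i ^ 3 * y i - 4 * x i * y i ^ 3) ^ 2 = (x i ^ 2 + y i ^ 2) ^ 4 := by ring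
      rw [this, h]; norm_num
    rw [Finset.sum_congr rfl (fun i _ => this i)]
    simp
  have h4 : (∑ _i : Fin n, (1 : ℝ) ^ 2) = (n : ℝ) := by simp
  rw [h4] at h1 h2
  calc C4 x y ^ 2 + S4 x y ^ 2 ≤ n * ∑ i, (x i ^ 4 - 6 * x i ^ 2 * y i ^ 2 + y i ^ 4) ^ 2 +
      n * ∑ i, (4 * x i ^ 3 * y i - 4 * x i * y i ^ 3) ^ 2 := add_le_add h1 h2
    _ = n * (∑ i, (x i ^ 4 - 6 * x i ^ 2 * y i ^ 2 + y i ^ 4) ^ 2 +
      ∑ i, (4 * x i ^ 3 * y i - 4 * x i * y i ^ 3) ^ 2) := by ring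
    _ = (n : ℝ) ^ 2 := by rw [h3]; ring

/-- `Q = 0` and no opposite edges. -/
theorem quad (tn : S_TN) (pw : S_PW) (m1 : S_M1) (m2 : S_M2) (m3 : S_M3) (m4 : S_M4) (fc : S_FC)
    (m5 : S_M5) (p3 : S_P3) {n : ℕ} {a : Fin n → Fin n → ℝ} {x y : Fin n → ℝ} (h : Eq n a x y)
    {k : Fin n → ZMod 4} {c s : Fin n → ℝ} (hc : Cl n x y k c s)
    (hN : ∀ κ, |N k κ - (n : ℝ) / 4| ≤ n / 1000) (hQ : Q s ≤ 25 * dl * n) (hs : |∑ i, s i| ≤ 3 * Q s)
    (hL : Lam a x y ≤ 3 * dl * (n : ℝ) ^ 2) :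
    (∀ i, s i = 0) ∧ ∀ i j, k j = k i + 2 → a i j = 0 := by
  have hn : (0 : ℝ) < n := by
    have := h.gr.two
    have h2 : (2 : ℝ) ≤ n := by exact_mod_cast this
    linarith
  have hQ0 : 0 ≤ Q s := Finset.sum_nonneg fun i _ => sq_nonneg _
  have hs2 : (∑ i, s i) ^ 2 ≤ n * Q s / 100 := by
    have h1 : (∑ i, s i) ^ 2 ≤ (3 * Q s) ^ 2 := by
      rw [← sq_abs]
      exact pow_le_pow_left₀ (abs_nonneg _) hs 2
    have h2 : (3 * Q s) ^ 2 ≤ 9 * Q s * (25 * dl * n) := by nlinarith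
    have h3 : 9 * Q s * (25 * dl * n) ≤ n * Q s / 100 := by
      unfold dl
      have : 0 ≤ n * Q s := by positivity
      nlinarith
    linarith
  have hpw := pw n a x y k c s h.gr hc
  have hpsi : ∀ i, psi c s i ≤ c i := by
    intro i
    have := (p3 (c i) (s i) (c i) (s i) (hc.cs i) (hc.cs i) (hc.c0 i) (hc.c0 i) (hc.ch i) (hc.ch i)).2.2
    exact this
  have e0 := tn n a x y s h
  have e1 := m1 n k s hN hs2
  have e2 := m2 n k s (fun i => s i * (1 - c i)) hN (by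
    intro i
    have h1 := hc.cs i
    have h2 := hc.c0 i
    have h3 : c i ≤ 1 := by nlinarith [sq_nonneg (s i)]
    have h4 : 1 - c i ≤ s i ^ 2 := by nlinarith
    have h5 : |s i| ≤ 1 := by
      rw [abs_le]; constructor <;> nlinarith [sq_nonneg (c i)]
    rw [abs_mul, abs_of_nonneg (by linarith : (0:ℝ) ≤ 1 - c i)]
    nlinarith [abs_nonneg (s i), sq_nonneg (s i)])
  have e3 := m3 n s hQ
  have e4 := m4 n a k c s h.gr hN hc.cs hc.c0 hc.ch hpsi
  obtain ⟨hF, hF2⟩ := fc n a x y k c s h.gr hc hL hQ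
  have e5 := m5 n (F a k) s hF hF2
  have hsum : ∑ i, ∑ j, a i j * T x y s i j ≤
      (∑ i, ∑ j, (3 / 2 * sam k i j - adj k i j) * (s i - s j) ^ 2)
      + (∑ i, ∑ j, (ind (k j = k i + 1) - ind (k i = k j + 1)) * (s i * (1 - c i) - s j * (1 - c j)))
      + 6 * (∑ i, ∑ j, |s i * s j| * (|s i| + |s j|))
      + (∑ i, ∑ j, (adj k i j * b a i j * (psi c s i + psi c s j) - opp k i j * a i j * (c i + c j)))
      + 12 * (∑ i, ∑ j, F a k i j * |s i * s j|) := by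
    simp only [Finset.mul_sum, ← Finset.sum_add_distrib]
    exact Finset.sum_le_sum fun i _ => Finset.sum_le_sum fun j _ => hpw i j
  have hnQ : n * Q s ≤ 0 := by
    have : 0 ≤ n * Q s := by positivity
    linarith
  have hQz : Q s = 0 := by
    have : Q s ≤ 0 := by
      by_contra hcon
      push Not at hcon
      have := mul_pos hn hcon
      linarith
    linarith
  have hsz : ∀ i, s i = 0 := by
    intro i
    have := (Finset.sum_eq_zero_iff_of_nonneg (fun i _ => sq_nonneg (s i))).1 hQz i (mem_univ i)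
    exact pow_eq_zero_iff (two_ne_zero) |>.1 this
  refine ⟨hsz, ?_⟩
  have hcz : ∀ i, c i = 1 := by
    intro i
    have h1 := hc.cs i
    rw [hsz i] at h1
    have h2 := hc.c0 i
    nlinarith
  have hpz : ∀ i, psi c s i = 0 := by
    intro i
    unfold psi
    rw [hsz i]; simp
  have ho : ∀ i j, a i j * T x y s i j ≤ - 2 * (opp k i j * a i j) := by
    intro i j
    have := hpw i j
    rw [hpz i, hpz j, hsz i, hsz j, hcz i, hcz j] at this
    simp at this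
    linarith
  have hnn : ∀ i j, 0 ≤ opp k i j * a i j := by
    intro i j
    refine mul_nonneg (ind_nonneg _) ?_
    rcases h.gr.zo i j with h1 | h1 <;> rw [h1] <;> norm_num
  have hs0 : ∑ i, ∑ j, opp k i j * a i j = 0 := by
    have h1 : ∑ i, ∑ j, a i j * T x y s i j ≤ ∑ i, ∑ j, - 2 * (opp k i j * a i j) :=
      Finset.sum_le_sum fun i _ => Finset.sum_le_sum fun j _ => ho i j
    simp only [← Finset.mul_sum] at h1
    have h2 : 0 ≤ ∑ i, ∑ j, opp k i j * a i j :=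
      Finset.sum_nonneg fun i _ => Finset.sum_nonneg fun j _ => hnn i j
    linarith
  intro i j hij
  have h1 := (Finset.sum_eq_zero_iff_of_nonneg
    (fun i _ => Finset.sum_nonneg fun j _ => hnn i j)).1 hs0 i (mem_univ i)
  have h2 := (Finset.sum_eq_zero_iff_of_nonneg (fun j _ => hnn i j)).1 h1 j (mem_univ j)
  unfold opp at h2
  rw [ind_true hij, one_mul] at h2
  exact h2

/-- the core theorem, from the pieces -/
theorem core (lm : S_LM) (sy : S_SY) (ki : S_KI) (rs : S_RS) (fr : S_FR) (cl : S_CL) (cu : S_CU)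
    (qb : S_QB) (mb : S_MB) (pw : S_PW) (m1 : S_M1) (m2 : S_M2) (m3 : S_M3) (m4 : S_M4) (fc : S_FC)
    (m5 : S_M5) (tn : S_TN) (p3 : S_P3) (fi : S_FI) {n : ℕ} {a : Fin n → Fin n → ℝ} (hg : Gr n a)
    {θ : Fin n → ℝ}
    (hmin : IsLocalMin (fun t : Fin n → ℝ => ∑ i, ∑ j, a i j * (1 - Real.cos (t i - t j))) θ) :
    ∀ i j, Real.cos (θ i - θ j) = 1 := by
  obtain ⟨l1, l2⟩ := lm n a θ hg.sym hmin
  set x : Fin n → ℝ := fun i => Real.cos (θ i) with hx
  set y : Fin n → ℝ := fun i => Real.sin (θ i) with hy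
  have hu : ∀ i j, u x y i j = Real.cos (θ i - θ j) := by
    intro i j; unfold u; rw [Real.cos_sub]
  have hv : ∀ i j, v x y i j = Real.sin (θ j - θ i) := by
    intro i j; unfold v; rw [Real.sin_sub]; simp only [hx, hy]; ring
  have hE : Eq n a x y := by
    refine ⟨hg, fun i => Real.cos_sq_add_sin_sq _, ?_, ?_⟩
    · intro i
      simp only [hv]
      exact l1 i
    · intro f
      simp only [hu]
      exact l2 f
  by_cases hR : (1 / 4 + dl) ^ 2 * (n : ℝ) ^ 2 < R1 x y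
  · intro i j
    rw [← hu]
    exact sy n a x y hE hR i j
  exfalso
  push Not at hR
  have hn : (0 : ℝ) < n := by
    have := hg.two
    have h2 : (2 : ℝ) ≤ n := by exact_mod_cast this
    linarith
  have hn' : 0 < n := by have := hg.two; omega
  have hR1 := rs n a x y hE hR
  have hK := ki n a x y hE
  have hR4 := R4_le x y hE.unit
  have hR2n : 0 ≤ R2 x y := by unfold R2; positivity
  have hR3n : 0 ≤ R3 x y := by unfold R3; positivity
  have hLn : 0 ≤ Lam a x y :=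
    Finset.sum_nonneg fun i _ => Finset.sum_nonneg fun j _ => sq_nonneg _
  have hdn : 0 < dl * (n : ℝ) ^ 2 := mul_pos dl_pos (by positivity)
  have hL : Lam a x y ≤ 3 * dl * (n : ℝ) ^ 2 := by nlinarith
  have hR2 : R2 x y ≤ 12 * dl * (n : ℝ) ^ 2 := by nlinarith
  have hR4' : (n : ℝ) ^ 2 - R4 x y ≤ 100 * dl * (n : ℝ) ^ 2 := by nlinarith
  obtain ⟨x', y', hu1, hu2, hu3, hr1, hr2, hr4, hS4, hC4⟩ := fr n x y hE.unit
  obtain ⟨k, c, s, hc⟩ := cl n x' y' hu1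
  have hE' : Eq n a x' y' := by
    refine ⟨hg, hu1, ?_, ?_⟩
    · intro i
      simp only [hu3]
      exact hE.l1 i
    · intro f
      simp only [hu2]
      exact hE.l2 f
  have hL' : Lam a x' y' ≤ 3 * dl * (n : ℝ) ^ 2 := by
    unfold Lam
    simp only [hu2]
    exact hL
  obtain ⟨hQ, hs⟩ := qb n x' y' k c s hn' hc hS4 hC4 (by rw [hr4]; exact hR4')
  have hN := mb n x' y' k c s hn' hc (by rw [hr1]; exact hR1) (by rw [hr2]; exact hR2) hQ
  obtain ⟨hsz, hop⟩ := quad tn pw m1 m2 m3 m4 fc m5 p3 hE' hc hN hQ hs hL'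
  have hcz : ∀ i, c i = 1 := by
    intro i
    have h1 := hc.cs i
    rw [hsz i] at h1
    have h2 := hc.c0 i
    nlinarith
  refine fi n a θ k hg hN ?_ ?_ hop hmin
  · intro i j hij
    rw [← hu, ← hu2, ((cu n x' y' k c s hc i j).1 hij).1, hsz i, hsz j, hcz i, hcz j]
    norm_num
  · intro i j hij
    rw [← hv, ← hu3, ((cu n x' y' k c s hc i j).2.1 hij).2, hsz i, hsz j, hcz i, hcz j]
    norm_num

end Pool.Agent.H608R4.KM
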