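import Pool.Agent.H608R4.KM.Stm

set_option autoImplicit false

namespace Pool.Agent.H608R4.KM

open Finset

theorem t_DB : S_DB := by
  intro n a h
  have hb : ∀ i j, b a i j = if i = j then 0 else 1 - a i j := by
    intro i j
    unfold b ind
    by_cases hij : i = j
    · simp [hij]
    · simp [hij]
  refine ⟨?_, ?_, ?_, ?_, ?_⟩
  · intro i
    have h1 : ∑ j, b a i j = ((n : ℝ) - 1) - ∑ j, a i j := by
      have h2 : ∀ j, b a i j = (1 - a i j) - (if i = j then 1 else 0) := by
        intro j
        rw [hb]
        by_cases hij : i = j
        · subst hij; simp [h.diag]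
        · simp [hij]
      rw [Finset.sum_congr rfl (fun j _ => h2 j), Finset.sum_sub_distrib, Finset.sum_sub_distrib]
      simp
      ring
    have h3 := h.deg i
    have h4 : (1:ℝ) ≤ n := by
      have := h.two
      have h5 : (2 : ℝ) ≤ n := by exact_mod_cast this
      linarith
    have h5 : 0 < dl := by unfold dl; norm_num
    rw [h1]
    nlinarith
  · intro i j
    rw [hb, hb, h.sym i j]
    by_cases hij : i = j
    · simp [hij]
    · have : ¬ j = i := fun h => hij h.symm
      simp [hij, this]
  · intro i j
    rw [hb]
    by_cases hij : i = j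
    · simp [hij]
    · rcases h.zo i j with h1 | h1
      · right; simp [hij, h1]
      · left; simp [hij, h1]
  · intro i j hij
    rw [hb]; simp [hij]
  · intro i
    rw [hb]; simp

end Pool.Agent.H608R4.KM
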