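import Pool.Agent.H608R4.KM.Stm

set_option autoImplicit false

namespace Pool.Agent.H608R4.KM

open Finset

theorem z4 : ∀ z : ZMod 4, z = 0 ∨ z = 1 ∨ z = 2 ∨ z = 3 := by decide

theorem t_QB : S_QB := by
  intro n x y k c s hn hc hS hC hR
  have hn' : (0 : ℝ) < n := by exact_mod_cast hn
  have p1 : ∀ i, x i ^ 4 - 6 * x i ^ 2 * y i ^ 2 + y i ^ 4 = 1 - 8 * (s i ^ 2 * c i ^ 2) := by
    intro i
    have h := hc.cs i
    have e : c i ^ 4 - 6 * c i ^ 2 * s i ^ 2 + s i ^ 4 = 1 - 8 * (s i ^ 2 * c i ^ 2) := by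
      have : (c i ^ 2 + s i ^ 2) ^ 2 = 1 := by rw [h]; norm_num
      linarith [this]
    rcases z4 (k i) with hk | hk | hk | hk
    · obtain ⟨h1, h2⟩ := hc.r0 i hk; rw [h1, h2, ← e]
    · obtain ⟨h1, h2⟩ := hc.r1 i hk; rw [h1, h2, ← e]; ring
    · obtain ⟨h1, h2⟩ := hc.r2 i hk; rw [h1, h2, ← e]; ring
    · obtain ⟨h1, h2⟩ := hc.r3 i hk; rw [h1, h2, ← e]; ring
  have p2 : ∀ i, 4 * x i ^ 3 * y i - 4 * x i * y i ^ 3 = 4 * (s i * c i * (c i ^ 2 - s i ^ 2)) := by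
    intro i
    rcases z4 (k i) with hk | hk | hk | hk
    · obtain ⟨h1, h2⟩ := hc.r0 i hk; rw [h1, h2]; ring
    · obtain ⟨h1, h2⟩ := hc.r1 i hk; rw [h1, h2]; ring
    · obtain ⟨h1, h2⟩ := hc.r2 i hk; rw [h1, h2]; ring
    · obtain ⟨h1, h2⟩ := hc.r3 i hk; rw [h1, h2]; ring
  have q1 : C4 x y = n - 8 * ∑ i, s i ^ 2 * c i ^ 2 := by
    unfold C4
    rw [Finset.sum_congr rfl (fun i _ => p1 i), Finset.sum_sub_distrib, ← Finset.mul_sum]
    simp
  have q2 : ∑ i, s i * c i * (c i ^ 2 - s i ^ 2) = 0 := by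
    unfold S4 at hS
    rw [Finset.sum_congr rfl (fun i _ => p2 i), ← Finset.mul_sum] at hS
    linarith
  have q3 : Q s / 2 ≤ ∑ i, s i ^ 2 * c i ^ 2 := by
    unfold Q
    rw [Finset.sum_div]
    refine Finset.sum_le_sum fun i _ => ?_
    have := hc.ch i
    nlinarith [sq_nonneg (s i)]
  have q4 : (n - C4 x y) * (n + C4 x y) ≤ 100 * dl * (n : ℝ) ^ 2 := by
    unfold R4 at hR
    rw [hS] at hR
    nlinarith
  have q5 : n - C4 x y ≤ 100 * dl * n := by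
    have h1 : 0 ≤ n - C4 x y := by
      rw [q1]
      have : 0 ≤ ∑ i, s i ^ 2 * c i ^ 2 := Finset.sum_nonneg fun i _ => by positivity
      linarith
    have h2 : (n - C4 x y) * n ≤ 100 * dl * (n : ℝ) ^ 2 :=
      le_trans (mul_le_mul_of_nonneg_left (by linarith) h1) q4
    have h3 : (n - C4 x y) * n ≤ (100 * dl * n) * n := by
      calc (n - C4 x y) * n ≤ 100 * dl * (n : ℝ) ^ 2 := h2
        _ = _ := by ring
    exact le_of_mul_le_mul_right h3 hn'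
  refine ⟨by rw [q1] at q5; linarith, ?_⟩
  have q6 : ∑ i, s i = ∑ i, (s i - s i * c i * (c i ^ 2 - s i ^ 2)) := by
    rw [Finset.sum_sub_distrib, q2, sub_zero]
  rw [q6]
  refine (Finset.abs_sum_le_sum_abs _ _).trans ?_
  unfold Q
  rw [Finset.mul_sum]
  refine Finset.sum_le_sum fun i _ => ?_
  have h := hc.cs i
  have h0 := hc.c0 i
  have h1 : c i ≤ 1 := by nlinarith [sq_nonneg (s i)]
  have h2 : 1 - c i ≤ s i ^ 2 := by nlinarith
  have h3 : |s i| ≤ 1 := by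
    rw [abs_le]; constructor <;> nlinarith [sq_nonneg (c i)]
  have e : s i - s i * c i * (c i ^ 2 - s i ^ 2) = s i * ((1 - c i) + 2 * c i * s i ^ 2) := by
    have : c i ^ 2 = 1 - s i ^ 2 := by linarith
    rw [this]; ring
  rw [e, abs_mul]
  have h4 : 0 ≤ (1 - c i) + 2 * c i * s i ^ 2 := by
    have : 0 ≤ 2 * c i * s i ^ 2 := by positivity
    linarith
  rw [abs_of_nonneg h4]
  have h5 : (1 - c i) + 2 * c i * s i ^ 2 ≤ 3 * s i ^ 2 := by
    have : c i * s i ^ 2 ≤ 1 * s i ^ 2 := mul_le_mul_of_nonneg_right h1 (sq_nonneg _)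
    linarith
  calc |s i| * ((1 - c i) + 2 * c i * s i ^ 2) ≤ 1 * (3 * s i ^ 2) :=
        mul_le_mul h3 h5 h4 (by norm_num)
    _ = 3 * s i ^ 2 := by ring

end Pool.Agent.H608R4.KM
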