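import Pool.Agent.H608R4.KM.Grf
import Pool.Agent.H608R4.KM.DB
import Pool.Agent.H608R4.KM.QB
import Pool.Agent.TH200.KM.LM
import Pool.Agent.TH644.KM.SY
import Pool.Agent.TH968.KM.BU
import Pool.Agent.TH643.KM.KI
import Pool.Agent.TH230.KM.RS
import Pool.Agent.TH547.KM.FR
import Pool.Agent.TH509.KM.CL
import Pool.Agent.TH576.KM.CU
import Pool.Agent.TH106.KM.MB
import Pool.Agent.TH150.KM.P1
import Pool.Agent.TH574.KM.P2
import Pool.Agent.TH928.KM.P3
import Pool.Agent.TH31.KM.PW
import Pool.Agent.TH494.KM.M1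
import Pool.Agent.TH524.KM.M2
import Pool.Agent.TH811.KM.M3
import Pool.Agent.TH283.KM.M4
import Pool.Agent.TH938.KM.M5
import Pool.Agent.TH554.KM.FC
import Pool.Agent.TH557.KM.TN
import Pool.Agent.TH16.KM.FI

/-!
# The density threshold of the homogeneous Kuramoto model is strictly smaller than `3/4`

For a graph `G` on `{1, …, n}` let `E(θ) = ∑_{i<j, i ~ j} (1 - cos (θ_i - θ_j))`. `G` is benign if every
local minimum of `E` is synchronised (all `θ_i` equal modulo `2π`). Let `μ_c` be the infimum of the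
`μ ∈ [0, 1]` such that every graph with all degrees at least `μ (n - 1)` is benign.

We show `μ_c ≤ 3/4 - 10^{-8}`; more precisely every graph all of whose degrees are at least
`(3/4 - 10^{-8}) (n - 1)` is benign.

Outline. Let `θ` be a local minimum which is not synchronised, `u_{ij} = cos (θ_i - θ_j)`, `a` the
adjacency matrix, `b = 1 - a` off the diagonal.

1. The equilibrium equations and the diagonal of the Hessian show that the order parameter
   `|∑ e^{iθ}|` is at most `(1/4 + 10^{-8}) n`; the Hessian on `cos θ`, `sin θ` and the equilibrium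
   equations then give `|∑ e^{iθ}|² ≤ 3 · 10^{-8} n²`.
2. `∑_{ij} (b_{ij} - K(u_{ij}))² ≥ 0` with `K(u) = (u² - u)/2` gives
   `n² - |∑ e^{4iθ}|² ≤ 10^{-6} n²`: the phases form four clusters at the distance `π/2`, of nearly
   equal sizes; let `s_i` be the sine of the distance of `θ_i` from the centre of its cluster.
3. The Hessian on `cos θ`, `sin θ` and the equilibrium equations multiplied by `s_i` give
   `0 ≤ ∑ a_{ij} T_{ij}` with `T_{ij} = u_{ij}(1 - u_{ij}) - sin (θ_j - θ_i) (s_i - s_j)`, and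
   `∑ a_{ij} T_{ij} ≤ -(18/100) n ∑ s_i²` because the complement has degrees at most
   `(1/4 + 10^{-8}) n`. So all `s_i = 0`, and there are no edges between opposite clusters.
4. In this exact state rotating the clusters by `0, ε, 2ε, 3ε` changes the energy by `4 M sin³ ε`,
   `M > 0` the number of edges between neighbouring clusters: not a local minimum.
-/

set_option autoImplicit false

namespace Pool.Agent.H608R4.KM.BelowThreeQuarters

open Finset

open scoped Classical in
/-- The energy `E(θ) = ∑_{i<j, i ~ j} (1 - cos (θ_i - θ_j))` of the homogeneous Kuramoto model. -/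
noncomputable def energy {n : ℕ} (G : SimpleGraph (Fin n)) (θ : Fin n → ℝ) : ℝ :=
  ∑ i, ∑ j, if i < j ∧ G.Adj i j then 1 - Real.cos (θ i - θ j) else 0

/-- `G` is benign: every local minimum of the energy is a synchronised state (all coordinates are equal
modulo `2π`). -/
def Benign {n : ℕ} (G : SimpleGraph (Fin n)) : Prop :=
  ∀ θ : Fin n → ℝ, IsLocalMin (energy G) θ → ∀ i j, ∃ m : ℤ, θ i - θ j = 2 * Real.pi * m

/-- The class `𝒢_μ`: every vertex has at least `μ (n - 1)` neighbours. -/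
def InClass (μ : ℝ) {n : ℕ} (G : SimpleGraph (Fin n)) : Prop :=
  ∀ v, μ * ((n : ℝ) - 1) ≤ ((G.neighborSet v).ncard : ℝ)

/-- The critical constant `μ_c`: the infimum of the `μ ∈ [0, 1]` such that every graph of the class
`𝒢_μ` is benign. -/
noncomputable def muC : ℝ :=
  sInf {μ : ℝ | 0 ≤ μ ∧ μ ≤ 1 ∧ ∀ n : ℕ, 2 ≤ n → ∀ G : SimpleGraph (Fin n), InClass μ G → Benign G}

open Pool.Agent.H608R4.KM in
theorem benign {n : ℕ} (hn : 2 ≤ n) (G : SimpleGraph (Fin n))
    (hG : InClass (3 / 4 - 1 / 10 ^ 8) G) : Benign G := by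
  intro θ hθ i j
  have hg : Gr n (am G) := gr_am hn G hG
  have hmin : IsLocalMin (fun t : Fin n → ℝ => ∑ i, ∑ j, am G i j * (1 - Real.cos (t i - t j))) θ := by
    have h1 : (fun t : Fin n → ℝ => ∑ i, ∑ j, am G i j * (1 - Real.cos (t i - t j))) =
        fun t => 2 * energy G t := by
      funext t
      rw [energy_double]
      rfl
    rw [h1]
    have h2 : ∀ᶠ t in nhds θ, energy G θ ≤ energy G t := hθ
    filter_upwards [h2] with t ht
    linarith
  have hDB := t_DB
  have hBU := Pool.Agent.TH968.KM.t_BU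
  have hKI := Pool.Agent.TH643.KM.t_KI hDB hBU
  have hCU := Pool.Agent.TH576.KM.t_CU
  have h := core Pool.Agent.TH200.KM.t_LM (Pool.Agent.TH644.KM.t_SY hDB) hKI
    (Pool.Agent.TH230.KM.t_RS hDB hBU hKI) Pool.Agent.TH547.KM.t_FR Pool.Agent.TH509.KM.t_CL hCU t_QB
    Pool.Agent.TH106.KM.t_MB (Pool.Agent.TH31.KM.t_PW hCU Pool.Agent.TH150.KM.t_P1
    Pool.Agent.TH574.KM.t_P2 Pool.Agent.TH928.KM.t_P3) Pool.Agent.TH494.KM.t_M1
    Pool.Agent.TH524.KM.t_M2 Pool.Agent.TH811.KM.t_M3 (Pool.Agent.TH283.KM.t_M4 hDB)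
    (Pool.Agent.TH554.KM.t_FC hDB hCU) Pool.Agent.TH938.KM.t_M5 (Pool.Agent.TH557.KM.t_TN hBU)
    Pool.Agent.TH928.KM.t_P3 Pool.Agent.TH16.KM.t_FI hg hmin i j
  obtain ⟨m, hm⟩ := (Real.cos_eq_one_iff _).1 h
  exact ⟨m, by rw [← hm]; ring⟩

/-- **The density threshold of the Kuramoto model is at most `3/4 - 10^{-8}`.** Every graph all of whose
degrees are at least `(3/4 - 10^{-8}) (n - 1)` is benign. -/
theorem result :
    (∀ n : ℕ, 2 ≤ n → ∀ G : SimpleGraph (Fin n), InClass (3 / 4 - 1 / 10 ^ 8) G → Benign G) ∧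
    muC ≤ 3 / 4 - 1 / 10 ^ 8 := by
  have h1 : ∀ n : ℕ, 2 ≤ n → ∀ G : SimpleGraph (Fin n), InClass (3 / 4 - 1 / 10 ^ 8) G → Benign G :=
    fun n hn G hG => benign hn G hG
  refine ⟨h1, csInf_le ⟨0, fun μ hμ => hμ.1⟩ ⟨by norm_num, by norm_num, h1⟩⟩

end Pool.Agent.H608R4.KM.BelowThreeQuarters
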