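import Pool.Agent.H608R4.KM.Asm

set_option autoImplicit false

namespace Pool.Agent.H608R4.KM

open Finset

open scoped Classical in
/-- adjacency matrix -/
noncomputable def am {n : ℕ} (G : SimpleGraph (Fin n)) (i j : Fin n) : ℝ := if G.Adj i j then 1 else 0

open scoped Classical in
theorem sum_am {n : ℕ} (G : SimpleGraph (Fin n)) (i : Fin n) :
    ∑ j, am G i j = ((G.neighborSet i).ncard : ℝ) := by
  unfold am
  rw [Finset.sum_ite, Finset.sum_const_zero, add_zero, Finset.sum_const, nsmul_eq_mul, mul_one]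
  congr 1
  rw [Set.ncard_eq_toFinset_card']
  congr 1
  ext j
  simp

theorem gr_am {n : ℕ} (hn : 2 ≤ n) (G : SimpleGraph (Fin n))
    (hd : ∀ i, (3 / 4 - 1 / 10 ^ 8 : ℝ) * ((n : ℝ) - 1) ≤ ((G.neighborSet i).ncard : ℝ)) : Gr n (am G) := by
  refine ⟨hn, ?_, ?_, ?_, ?_⟩
  · intro i j
    unfold am
    rw [G.adj_comm]
  · intro i j
    unfold am
    split_ifs
    · right; rfl
    · left; rfl
  · intro i
    unfold am
    rw [if_neg (G.irrefl)]
  · intro i
    rw [sum_am]
    exact hd i

open scoped Classical in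
theorem energy_double {n : ℕ} (G : SimpleGraph (Fin n)) (t : Fin n → ℝ) :
    ∑ i, ∑ j, am G i j * (1 - Real.cos (t i - t j)) =
      2 * ∑ i, ∑ j, (if i < j ∧ G.Adj i j then 1 - Real.cos (t i - t j) else 0) := by
  have h1 : ∑ i, ∑ j, (if j < i ∧ G.Adj i j then 1 - Real.cos (t i - t j) else 0) =
      ∑ i, ∑ j, (if i < j ∧ G.Adj i j then 1 - Real.cos (t i - t j) else 0) := by
    rw [Finset.sum_comm]
    refine Finset.sum_congr rfl fun i _ => Finset.sum_congr rfl fun j _ => ?_
    rw [G.adj_comm j i, show t j - t i = -(t i - t j) by ring, Real.cos_neg]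
  rw [two_mul]
  nth_rewrite 2 [← h1]
  rw [← Finset.sum_add_distrib]
  refine Finset.sum_congr rfl fun i _ => ?_
  rw [← Finset.sum_add_distrib]
  refine Finset.sum_congr rfl fun j _ => ?_
  unfold am
  by_cases hA : G.Adj i j
  · have hij : i ≠ j := G.ne_of_adj hA
    rcases lt_or_gt_of_ne hij with h | h
    · have h' : ¬ j < i := not_lt.2 h.le
      simp [hA, h, h']
    · have h' : ¬ i < j := not_lt.2 h.le
      simp [hA, h, h']
  · simp [hA]

end Pool.Agent.H608R4.KM
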